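import Pool.Agent.Y107.KO.Defs

/-!
# Hodge classes and absolute Hodge classes of hypersurfaces: definitions
-/

set_option autoImplicit false

open CategoryTheory AlgebraicGeometry MvPolynomial

namespace Pool.Agent.Y107.KA

open Pool.Agent.Y116.UV Pool.Agent.Y101.Ds Pool.Agent.Y101.Th Pool.Agent.Y107.KO

/-- Data for the smooth schemes `X` over the field `k ⊆ ℂ`. `S` is the set of automorphisms `σ` of `ℂ`,
`base` is the identity; `H σ X p j = H^(2j-p)((X_ℂ)^σ, ℚ(j))` (singular cohomology), with the subgroup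
`Hodge σ X p j` of the Hodge classes (the classes of type `(0, 0)` and weight `0` in the mixed Hodge
structure); `K X p j` is the product of the de Rham cohomology and the étale cohomology (coefficients
`𝔸_f(j)`) of `X_ℂ` in degree `2j-p`; `comp σ` maps a class to its de Rham and étale components, which are
viewed as elements of `K X p j` by means of the isomorphisms `σ_dR` and `σ_et`. -/
structure Theory (k : Type) [Field k] where
  S : Type
  base : S
  H : S → Sch k → ℤ → ℤ → Type
  K : Sch k → ℤ → ℤ → Type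
  [gH : ∀ s X p j, AddCommGroup (H s X p j)]
  [gK : ∀ X p j, AddCommGroup (K X p j)]
  Hodge : ∀ s X p j, AddSubgroup (H s X p j)
  comp : ∀ s X p j, H s X p j →+ K X p j

attribute [instance] Theory.gH Theory.gK

variable {k : Type} [Field k]

/-- The class `α` is absolute Hodge: for each `σ` there is a Hodge class `β` on the conjugate variety
with the conjugate de Rham and étale components. -/
def IsAbs (T : Theory k) {X : Sch k} {p j : ℤ} (α : T.H T.base X p j) : Prop :=
  ∀ s, ∃ β ∈ T.Hodge s X p j, T.comp s X p j β = T.comp T.base X p j α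

/-- All Hodge classes in `H^(2j-p)(X, ℚ(j))` are absolute Hodge, for all `j`. -/
def AllAbs (T : Theory k) (p : ℤ) (X : Sch k) : Prop :=
  ∀ (j : ℤ), ∀ α ∈ T.Hodge T.base X p j, IsAbs T α

/-- Maps from the cohomology of `X` to that of `Y` for all conjugates, compatible with the components,
which preserve Hodge classes. -/
structure AMap (T : Theory k) (X : Sch k) (p j : ℤ) (Y : Sch k) (q v : ℤ) where
  f : ∀ s, T.H s X p j →+ T.H s Y q v
  fK : T.K X p j →+ T.K Y q v
  comm : ∀ s x, T.comp s Y q v (f s x) = fK (T.comp s X p j x)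
  hodge : ∀ s, ∀ x ∈ T.Hodge s X p j, f s x ∈ T.Hodge s Y q v

/-- Each Hodge class `α` in `H^(2j-p)(X, ℚ(j))` is a finite sum of classes `g (f α)` with maps `f` (of the
kind `AMap`) to groups `H^(2v-q)(Y, ℚ(v))`, `(q, Y)` in the list `L`, and maps `g` back. -/
def Retract (T : Theory k) (p : ℤ) (X : Sch k) (L : List (ℤ × Sch k)) : Prop :=
  ∀ (j : ℤ), ∀ α ∈ T.Hodge T.base X p j, ∃ (n : ℕ) (Z : Fin n → ℤ × Sch k) (v : Fin n → ℤ)
    (f : ∀ l, AMap T X p j (Z l).2 (Z l).1 (v l)) (g : ∀ l, AMap T (Z l).2 (Z l).1 (v l) X p j),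
    (∀ l, Z l ∈ L) ∧ α = ∑ l, (g l).f T.base ((f l).f T.base α)

/-- Known properties:

* `iso`: isomorphic smooth schemes have isomorphic cohomology;
* `gysin`: if `V : f = 0` is a smooth closed subscheme of an affine space and `f ≠ 0`, then
  `H^(2j)(V_c, ℚ(j))`, `V_c` the union of the components of codimension `c` of `V`, is a direct summand of
  `H^(2j+2c-1)(U, ℚ(j+c))`, where `U : ∑ f_l w_l = 1` is the affine bundle over the complement of `V`;
* `residue`: `H^(2j-1)(U, ℚ(j))` is the direct sum of the groups `H^(2j-2c)(V_c, ℚ(j-c))` (Gysin sequence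
  and homotopy invariance);
* `jouanolou`: a smooth projective scheme has the cohomology of a smooth affine scheme, an affine
  bundle over it;
* `extend`: each Hodge class in `H^(2j)(V, ℚ(j))`, `V` smooth and affine, is the restriction of a Hodge class
  on a smooth projective compactification (Deligne). -/
structure IsTheory (T : Theory k) : Prop where
  iso : ∀ {X Y : Sch k}, FT True X → Smooth X.hom → Nonempty (X ≅ Y) →
    Retract T 0 X [(0, Y)] ∧ Retract T 0 Y [(0, X)]
  gysin : ∀ (σ : Type) [Finite σ] (m : ℕ) (f : Fin m → MvPolynomial σ k), (∃ l, f l ≠ 0) →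
    Smooth (zeroS f).hom → Retract T 0 (zeroS f) [(1, bundleS f)]
  residue : ∀ (σ : Type) [Finite σ] (m : ℕ) (f : Fin m → MvPolynomial σ k),
    Smooth (zeroS f).hom → Retract T 1 (bundleS f) [(0, zeroS f)]
  jouanolou : ∀ X : Sch k, SmProj X →
    ∃ (A : Type) (_ : CommRing A) (_ : Algebra k A), Algebra.Smooth k A ∧
      Retract T 0 X [(0, aff k A)] ∧ Retract T 0 (aff k A) [(0, X)]
  extend : ∀ (A : Type) [CommRing A] [Algebra k A], Algebra.Smooth k A → ∀ (j : ℤ),
    ∀ α ∈ T.Hodge T.base (aff k A) 0 j, ∃ (X : Sch k) (g : AMap T X 0 j (aff k A) 0 j),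
      SmProj X ∧ ∃ β ∈ T.Hodge T.base X 0 j, α = g.f T.base β

/-- Hodge classes on smooth projective schemes over `k` are absolute Hodge. -/
def HodgeIsAbsolute (T : Theory k) : Prop := ∀ X : Sch k, SmProj X → AllAbs T 0 X

/-- The Hodge classes in `H^(2j-1)(S_t, ℚ(j))` are absolute Hodge for the hypersurfaces
`S_t : ∑ t_ijl w_i y_j z_l = 1` with smooth `V_t`. -/
def OnHypersurfaces (T : Theory k) : Prop :=
  ∀ (a b c : ℕ) (t : Fin a → Option (Fin b) → Option (Fin c) → k), Smooth (zeroSum t).hom →
    AllAbs T 1 (sumS t)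

/-- The same for the coefficients zero and one. -/
def OnZeroOneHypersurfaces (T : Theory k) : Prop :=
  ∀ (a b c : ℕ) (t : Fin a → Option (Fin b) → Option (Fin c) → k), Smooth (zeroSum t).hom →
    (∀ i j l, t i j l = 0 ∨ t i j l = 1) → AllAbs T 1 (sumS t)

end Pool.Agent.Y107.KA
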