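import Pool.Agent.Y107.KA.Defs
import Pool.Agent.Y107.KO.Main

/-!
# Hodge classes and absolute Hodge classes of hypersurfaces
-/

set_option autoImplicit false

open CategoryTheory AlgebraicGeometry MvPolynomial

namespace Pool.Agent.Y107.KA

open Pool.Agent.Y116.UV Pool.Agent.Y101.Ds Pool.Agent.Y101.Th Pool.Agent.Z125.UN
  Pool.Agent.Y107.KO

variable {k : Type} [Field k] {T : Theory k}

lemma IsAbs.map {X Y : Sch k} {p j q v : ℤ} {α : T.H T.base X p j} (h : IsAbs T α)
    (g : AMap T X p j Y q v) : IsAbs T (g.f T.base α) := by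
  intro s
  obtain ⟨β, hβ, hc⟩ := h s
  exact ⟨g.f s β, g.hodge s β hβ, by rw [g.comm, g.comm, hc]⟩

lemma isAbs_zero {X : Sch k} {p j : ℤ} : IsAbs T (0 : T.H T.base X p j) :=
  fun s => ⟨0, zero_mem _, by rw [map_zero, map_zero]⟩

lemma IsAbs.add {X : Sch k} {p j : ℤ} {α β : T.H T.base X p j} (h : IsAbs T α)
    (h' : IsAbs T β) : IsAbs T (α + β) := by
  intro s
  obtain ⟨a, ha, hc⟩ := h s
  obtain ⟨b, hb, hd⟩ := h' s
  exact ⟨a + b, add_mem ha hb, by rw [map_add, map_add, hc, hd]⟩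

lemma isAbs_sum {X : Sch k} {p j : ℤ} {n : ℕ} (α : Fin n → T.H T.base X p j)
    (h : ∀ l, IsAbs T (α l)) : IsAbs T (∑ l, α l) :=
  Finset.sum_induction α (fun x => IsAbs T x) (fun _ _ => IsAbs.add) isAbs_zero fun l _ => h l

lemma Retract.all {p : ℤ} {X : Sch k} {L : List (ℤ × Sch k)} (h : Retract T p X L)
    (hL : ∀ Z ∈ L, AllAbs T Z.1 Z.2) : AllAbs T p X := by
  intro j α hα
  obtain ⟨n, Z, v, f, g, hZ, hs⟩ := h j α hα
  rw [hs]
  exact isAbs_sum _ fun l => (hL _ (hZ l) (v l) _ ((f l).hodge T.base α hα)).map (g l)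

lemma Retract.one {p q : ℤ} {X Y : Sch k} (h : Retract T p X [(q, Y)]) (hY : AllAbs T q Y) :
    AllAbs T p X := by
  refine h.all fun Z hZ => ?_
  rw [List.mem_singleton] at hZ
  rw [hZ]
  exact hY

/-- The result for a smooth closed subscheme of an affine space. -/
theorem closed_step (hT : IsTheory T) {n a b : ℕ} {I : Ideal (MvPolynomial (Fin n) k)}
    (t : Fin a → Option (Fin b) → Option (Fin n) → k) (h2 : ∃ i, biaff (t i) ≠ 0)
    (h3 : Smooth (zeroSum t).hom) (E : (MvPolynomial (Fin b ⊕ Fin n) k ⧸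
      Ideal.span (Set.range fun i => biaff (t i))) ≃ₐ[k] (MvPolynomial (Fin n) k ⧸ I)) :
    AllAbs T 0 (aff k (MvPolynomial (Fin n) k ⧸ I)) ↔ AllAbs T 1 (sumS t) := by
  have h4 := hT.iso (X := zeroSum t) (Y := aff k (MvPolynomial (Fin n) k ⧸ I)) (ft_aff True) h3
    ⟨affIso E.symm⟩
  constructor
  · intro h
    exact (hT.residue _ _ (fun i => biaff (t i)) h3).one (h4.1.one h)
  · intro h
    exact h4.2.one ((hT.gysin _ _ (fun i => biaff (t i)) h2 h3).one h)

/-- A smooth affine scheme is a closed subscheme of an affine space. -/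
theorem affine_closed (hT : IsTheory T) (A : Type) [CommRing A] [Algebra k A]
    (hA : Algebra.Smooth k A) : ∃ (n : ℕ) (I : Ideal (MvPolynomial (Fin n) k)),
      Algebra.Smooth k (MvPolynomial (Fin n) k ⧸ I) ∧
        (AllAbs T 0 (aff k A) ↔ AllAbs T 0 (aff k (MvPolynomial (Fin n) k ⧸ I))) := by
  obtain ⟨n, f, hf⟩ := Algebra.FiniteType.iff_quotient_mvPolynomial''.mp
    (inferInstance : Algebra.FiniteType k A)
  have e := Ideal.quotientKerAlgEquivOfSurjective hf
  have h1 : Algebra.Smooth k (MvPolynomial (Fin n) k ⧸ RingHom.ker f) :=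
    Algebra.Smooth.of_equiv e.symm
  have h2 := hT.iso (X := aff k A) (Y := aff k (MvPolynomial (Fin n) k ⧸ RingHom.ker f))
    (ft_aff True) (smooth_aff hA) ⟨affIso e⟩
  exact ⟨n, _, h1, h2.2.one, h2.1.one⟩

/-- Each smooth projective scheme alone. -/
theorem alone (hT : IsTheory T) (X : Sch k) (hX : SmProj X) :
    ∃ (a b c : ℕ) (t : Fin a → Option (Fin b) → Option (Fin c) → k),
      (IsFrac k → ∀ i j l, t i j l = 0 ∨ t i j l = 1) ∧ Smooth (zeroSum t).hom ∧
        (AllAbs T 0 X ↔ AllAbs T 1 (sumS t)) := by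
  obtain ⟨A, _, _, hA, h1, h2⟩ := hT.jouanolou X hX
  obtain ⟨n, I, hI, h3⟩ := affine_closed hT A hA
  have h4 : AllAbs T 0 X ↔ AllAbs T 0 (aff k (MvPolynomial (Fin n) k ⧸ I)) :=
    (Iff.intro h2.one h1.one).trans h3
  by_cases hk : IsFrac k
  · obtain ⟨a, b, t, h5, h6, h7, ⟨E⟩⟩ := present_frac hk I hI
    exact ⟨a, b, n, t, fun _ => h5, h7, h4.trans (closed_step hT t h6 h7 E)⟩
  · obtain ⟨a, b, t, h6, h7, ⟨E⟩⟩ := present_univ I hI
    exact ⟨a, b, n, t, fun h => absurd h hk, h7, h4.trans (closed_step hT t h6 h7 E)⟩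

lemma smooth_of_aff {A : Type} [CommRing A] [Algebra k A] (h : Smooth (aff k A).hom) :
    Algebra.Smooth k A := by
  change Smooth (Spec.map (CommRingCat.ofHom (algebraMap k A))) at h
  rw [HasRingHomProperty.Spec_iff (P := @Smooth)] at h
  exact RingHom.smooth_algebraMap.mp h

/-- From projective schemes to the hypersurfaces. -/
theorem on_of (hT : IsTheory T) (h : HodgeIsAbsolute T) {a b c : ℕ}
    (t : Fin a → Option (Fin b) → Option (Fin c) → k) (ht : Smooth (zeroSum t).hom) :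
    AllAbs T 1 (sumS t) := by
  have hA : Algebra.Smooth k (MvPolynomial (Fin b ⊕ Fin c) k ⧸
      Ideal.span (Set.range fun i => biaff (t i))) := smooth_of_aff ht
  refine (hT.residue _ _ (fun i => biaff (t i)) ht).one fun j α hα => ?_
  obtain ⟨X, g, hX, β, hβ, rfl⟩ := hT.extend _ hA j α hα
  exact (h X hX j β hβ).map g

theorem all_iff (hT : IsTheory T) : HodgeIsAbsolute T ↔ OnHypersurfaces T := by
  constructor
  · intro h a b c t ht
    exact on_of hT h t ht
  · intro h X hX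
    obtain ⟨a, b, c, t, -, h1, h2⟩ := alone hT X hX
    exact h2.mpr (h a b c t h1)

theorem frac_iff (hk : IsFrac k) (hT : IsTheory T) :
    HodgeIsAbsolute T ↔ OnZeroOneHypersurfaces T := by
  constructor
  · intro h a b c t ht _
    exact on_of hT h t ht
  · intro h X hX
    obtain ⟨a, b, c, t, h0, h1, h2⟩ := alone hT X hX
    exact h2.mpr (h a b c t h1 (h0 hk))

end Pool.Agent.Y107.KA
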